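import Pool.Agent.V1171.CN.Main

/-!
The nucleus of a compact set need not be contained in its core: in the complex surface
`ℂ × ℙ¹`, for the compact set `K = {‖b‖ ≤ 1} × {0} ∪ {‖b‖ = 1} × ℙ¹`, no spherical cut of `K`
removes anything (so the nucleus is `K`), but there is a smooth plurisubharmonic function near `K`
which is strictly plurisubharmonic at the point `(0, 0)` of `K`.
-/

set_option autoImplicit false

open scoped Manifold ContDiff Topology
open Set

namespace Pool.Agent.Results.MP_60ed70_an.NucleusNotInCore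

open Pool.Agent.V1171.CN Pool.Agent.H194R3.Cartan

/-- In the Hausdorff, second countable complex surface `ℂ × ℙ¹` there are a compact set `K` and a
point of the nucleus of `K` that does not belong to the core of `K`. -/
theorem result :
    T2Space (ℂ × P1) ∧ SecondCountableTopology (ℂ × P1) ∧
    IsManifold (𝓘(ℂ, ℂ).prod 𝓘(ℂ, ℂ)) ω (ℂ × P1) ∧
    ∃ K : Set (ℂ × P1), IsCompact K ∧
      ∃ ζ ∈ nucleus (𝓘(ℂ, ℂ).prod 𝓘(ℂ, ℂ)) 2 K, ζ ∉ core (𝓘(ℂ, ℂ).prod 𝓘(ℂ, ℂ)) K := by
  have h : SecondCountableTopology P1 := ChartedSpace.secondCountable_of_sigmaCompact ℂ P1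
  exact ⟨inferInstance, inferInstance, inferInstance, main⟩

end Pool.Agent.Results.MP_60ed70_an.NucleusNotInCore
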